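import Pool.Agent.Y143.Defs

/-!
# Integrality of the Frobenius eigenvalues
-/

namespace Run7.h615.WM

universe u v

open Module Pool.Agent.Y143

variable {Ω : Type u} [Field Ω]

/-- The eigenvalues of `F` on `A` are algebraic integers. -/
def IntegralOn {H : Type v} [AddCommGroup H] [Module Ω H] (F : Module.End Ω H)
    (A : Submodule Ω H) : Prop :=
  ∀ (α : Ω) (x : H), x ∈ A → x ≠ 0 → F x = α • x → IsIntegral ℤ α

/-- Katz-Messing: the eigenvalues of the Frobenius on the cohomology of the strata are algebraic
integers. -/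
def IntegralFrobenius [CharZero Ω] {Γ : Type} {n q : ℕ} (X : SpecialFibre.{u, v} Ω Γ n q) : Prop :=
  ∀ a m, IntegralOn (X.act a X.frob) (X.gr a m)

end Run7.h615.WM
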