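import Pool.Agent.Y143.Defs

/-!
# The decomposition of the cohomology given by the irreducible components
-/

namespace Run7.h615.WM

universe u v

open Module Pool.Agent.Y143

variable {Ω : Type u} [Field Ω]

/-- The decomposition of the cohomology `H` of a smooth projective variety, with the graded pieces
`gr m`, the Poincare pairing `B` and the Frobenius `F`, given by its irreducible components, which
are defined over the residue field: `p i` is the projection to the cohomology of the component `i`,
that is, the cup product with its class in `H^0`. -/
structure IsSplitting {H : Type v} [AddCommGroup H] [Module Ω H] (gr : ℤ → Submodule Ω H)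
    (B : H →ₗ[Ω] H →ₗ[Ω] Ω) (F : Module.End Ω H) {I : Type} [Fintype I]
    (p : I → Module.End Ω H) : Prop where
  sum : ∀ x, ∑ i, p i x = x
  idem : ∀ i x, p i (p i x) = p i x
  orth : ∀ i j x, i ≠ j → p i (p j x) = 0
  gr : ∀ i m x, x ∈ gr m → p i x ∈ gr m
  frob : ∀ i x, p i (F x) = F (p i x)
  pair : ∀ i x y, ev B (p i x) y = ev B x (p i y)

/-- The restriction of classes to the component given by the projection `e` of classes on the
component given by the projection `p`. -/
def restr {H : Type v} [AddCommGroup H] [Module Ω H] {H' : Type v} [AddCommGroup H'] [Module Ω H']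
    (p : Module.End Ω H) (ρ : H →ₗ[Ω] H') (e : Module.End Ω H') : H →ₗ[Ω] H' := e ∘ₗ ρ ∘ₗ p

end Run7.h615.WM
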