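import Pool.Agent.X302.MW.SDefs
import Pool.Agent.Run7.h615.WM.Split

/-!
# Components, double surfaces and the forms given by the double surfaces

`X` is the cohomology of the strata of the special fibre of a projective strictly semistable scheme
of relative dimension three. The irreducible components `Y_i` of the special fibre are indexed by
`I`, the irreducible components `D_j` of their intersections `Y_i ∩ Y_i'` (the double surfaces) are
indexed by `J`.
-/

namespace Run7.h615.WM

universe u v

open Module Pool.Agent.Y143 Pool.Agent.X302.MW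
open scoped NNReal

variable {Ω : Type u} [Field Ω] [CharZero Ω] {Γ : Type} {n q : ℕ}

/-- The irreducible components `Y_i` and the double surfaces `D_j` of the special fibre: `D_j` is a
component of the intersection of the two components `Y_(fst j)` and `Y_(snd j)`, so that the
restriction of classes of the other components to `D_j` is zero. -/
structure Components (X : SpecialFibre.{u, v} Ω Γ n q) (I J : Type) [Fintype I] [Fintype J] where
  comp : I → Module.End Ω (X.H 0)
  dbl : J → Module.End Ω (X.H 1)
  comp_split : IsSplitting (X.gr 0) (X.pair 0) (X.act 0 X.frob) comp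
  dbl_split : IsSplitting (X.gr 1) (X.pair 1) (X.act 1 X.frob) dbl
  fst : J → I
  snd : J → I
  ne : ∀ j, fst j ≠ snd j
  incident : ∀ i j, i ≠ fst j → i ≠ snd j → restr (comp i) (X.res 0) (dbl j) = 0

namespace Components

variable {X : SpecialFibre.{u, v} Ω Γ n q} {I J : Type} [Fintype I] [Fintype J]
  (D : Components X I J)

/-- The generalized eigenspace of the Frobenius in `H^2(Y_i)` for the eigenvalue `α`. -/
def compPart (i : I) (α : Ω) : Submodule Ω (X.H 0) :=
  frobPart X 0 2 α ⊓ LinearMap.range (D.comp i)

/-- The generalized eigenspace of the Frobenius in `H^2(D_j)` for the eigenvalue `α`. -/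
def dblPart (j : J) (α : Ω) : Submodule Ω (X.H 1) :=
  frobPart X 1 2 α ⊓ LinearMap.range (D.dbl j)

/-- The multiplicity of the eigenvalue `α` of the Frobenius on `H^2(Y_i)`. -/
noncomputable def multComp (i : I) (α : Ω) : ℕ := finrank Ω (D.compPart i α)

/-- The multiplicity of the eigenvalue `α` of the Frobenius on `H^2(D_j)`. -/
noncomputable def multDbl (j : J) (α : Ω) : ℕ := finrank Ω (D.dblPart j α)

/-- The restriction of classes on `Y_i` to `D_j` (with the sign of the weight spectral sequence). -/
def resTo (i : I) (j : J) : X.H 0 →ₗ[Ω] X.H 1 := restr (D.comp i) (X.res 0) (D.dbl j)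

/-- The characteristic polynomials of the Frobenius on `H^2(Y_i)` and on `H^2(D_j)` have rational
coefficients: conjugate numbers have the same multiplicities. -/
def IsRational : Prop := ∀ α β : Ω, AreConjugate α β →
  (∀ i, D.multComp i α = D.multComp i β) ∧ ∀ j, D.multDbl j α = D.multDbl j β

end Components

/-- The slope of `β` for the valuation `w` of `Ω`, with the normalization that the slope of `q` is
one. -/
noncomputable def slope (w : Valuation Ω ℝ≥0) (q : ℕ) (β : Ω) : ℝ :=
  Real.log (w β) / Real.log (w (q : Ω))

/-- The sum of the numbers `1 - λ`, where `λ` runs through the slopes less than one of the conjugates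
of `α`. -/
noncomputable def defect (w : Valuation Ω ℝ≥0) (q : ℕ) (α : Ω) : ℝ :=
  (((minpoly ℚ α).aroots Ω).map fun β => max 0 (1 - slope w q β)).sum

/-- Well-known properties of the slopes of the Frobenius on the second (crystalline) cohomology of
the `Y_i` and `D_j`, for a `p`-adic valuation `w`:

* the Newton polygons of the factors of the characteristic polynomials given by the rational
  polynomials have integral vertices (Manin);
* the Newton polygon of `H^2(D_j)` lies above the Hodge polygon (Mazur, Ogus), where `pg j` is the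
  geometric genus of `D_j`: for each set `s` of eigenvalues, the sum of the `1 - λ` for the slopes
  `λ` of the elements of `s`, with multiplicities, is at most `pg j`. -/
structure HasSlopes {X : SpecialFibre.{u, v} Ω Γ n q} {I J : Type} [Fintype I] [Fintype J]
    (D : Components X I J) (w : Valuation Ω ℝ≥0) (pg : J → ℕ) : Prop where
  lt_one : w (q : Ω) < 1
  manin_comp : ∀ i (α : Ω), IsAlgebraic ℚ α → ∃ m : ℤ, D.multComp i α * defect w q α = m
  manin_dbl : ∀ j (α : Ω), IsAlgebraic ℚ α → ∃ m : ℤ, D.multDbl j α * defect w q α = m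
  hodge_dbl : ∀ j (s : Finset Ω), ∑ β ∈ s, D.multDbl j β * (1 - slope w q β) ≤ pg j

section forms

variable {H : Type v} [AddCommGroup H] [Module Ω H] {H' : Type v} [AddCommGroup H'] [Module Ω H']

/-- The bilinear form `B` is nondegenerate on the non-Tate part: for `α` which is not a Tate number
and `α β = q ^ 2`, no nonzero element of `P α` is orthogonal to `P β`. -/
def NondegOn (q : ℕ) (P : Ω → Submodule Ω H) (B : H →ₗ[Ω] H →ₗ[Ω] Ω) : Prop :=
  ∀ α β : Ω, ¬ IsTateNumber q α → α * β = (q : Ω) ^ 2 → ∀ x ∈ P α, (∀ y ∈ P β, ev B x y = 0) → x = 0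

/-- On the non-Tate part, the pull-back by `ρ` of the form `B'` is `d` times the form `B`. -/
def IsMultiple (q : ℕ) (P : Ω → Submodule Ω H) (B : H →ₗ[Ω] H →ₗ[Ω] Ω)
    (B' : H' →ₗ[Ω] H' →ₗ[Ω] Ω) (ρ : H →ₗ[Ω] H') (d : ℕ) : Prop :=
  ∀ α β : Ω, ¬ IsTateNumber q α → ¬ IsTateNumber q β → ∀ x ∈ P α, ∀ y ∈ P β,
    ev B' (ρ x) (ρ y) = d * ev B x y

/-- The linear map `ρ` is zero on the non-Tate part. -/
def IsZeroOn (q : ℕ) (P : Ω → Submodule Ω H) (ρ : H →ₗ[Ω] H') : Prop :=
  ∀ α : Ω, ¬ IsTateNumber q α → ∀ x ∈ P α, ρ x = 0

end forms

/-- The forms given by the double surfaces on the non-Tate part of `H^2(Y_i)` are proportional: there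
are a bilinear form `form i` and natural numbers `deg i j` such that

* `form i` is nondegenerate on the non-Tate part of `H^2(Y_i)`;
* `x|D_j . y|D_j = deg i j * form i x y` for non-Tate classes `x` and `y` on `Y_i`;
* if `deg i j = 0`, then the restriction of the non-Tate classes on `Y_i` to `D_j` is zero. -/
structure ProportionalForms {X : SpecialFibre.{u, v} Ω Γ n q} {I J : Type} [Fintype I] [Fintype J]
    (D : Components X I J) where
  form : I → X.H 0 →ₗ[Ω] X.H 0 →ₗ[Ω] Ω
  deg : I → J → ℕ
  nondeg' : ∀ i, NondegOn q (D.compPart i) (form i)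
  restrict' : ∀ i j, IsMultiple q (D.compPart i) (form i) (X.pair 1) (D.resTo i j) (deg i j)
  zero' : ∀ i j, deg i j = 0 → IsZeroOn q (D.compPart i) (D.resTo i j)

namespace ProportionalForms

variable {X : SpecialFibre.{u, v} Ω Γ n q} {I J : Type} [Fintype I] [Fintype J]
  {D : Components X I J} (F : ProportionalForms D)

lemma nondeg (i : I) (α β : Ω) (hα : ¬ IsTateNumber q α) (h : α * β = (q : Ω) ^ 2) :
    ∀ x ∈ D.compPart i α, (∀ y ∈ D.compPart i β, F.form i x y = 0) → x = 0 := F.nondeg' i α β hα h

lemma restrict (i : I) (j : J) (α β : Ω) (hα : ¬ IsTateNumber q α) (hβ : ¬ IsTateNumber q β) :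
    ∀ x ∈ D.compPart i α, ∀ y ∈ D.compPart i β,
      X.pair 1 (D.resTo i j x) (D.resTo i j y) = F.deg i j * F.form i x y :=
  F.restrict' i j α β hα hβ

lemma zero (i : I) (j : J) (α : Ω) (hα : ¬ IsTateNumber q α) (h : F.deg i j = 0) :
    ∀ x ∈ D.compPart i α, D.resTo i j x = 0 := F.zero' i j h α hα

/-- The component `Y_i` is active for `D_j` and `α`: `α` is an eigenvalue of the Frobenius on
`H^2(Y_i)`, and `deg i j` is not zero. -/
def Active (α : Ω) (i : I) (j : J) : Prop := F.deg i j ≠ 0 ∧ D.multComp i α ≠ 0

/-- The double surface `D_j` is a link for `α`: both components which contain it are active. -/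
def Link (α : Ω) (j : J) : Prop := F.Active α (D.fst j) j ∧ F.Active α (D.snd j) j

/-- The graph, with the components as vertices, given by the links for `α` is a forest: it has an
orientation such that each link `j` goes from a component `lo j` of smaller rank to a component
`up j` of larger rank and that a component is the end `up j` of at most one link `j`. Moreover, for
each link `D_j`, the geometric genus of `D_j` is at most one or the multiplicities of `α` in
`H^2(Y_(up j))` and in `H^2(D_j)` are the same. -/
def IsForest (pg : J → ℕ) (α : Ω) : Prop :=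
  ∃ (lo up : J → I) (r : I → ℕ),
    (∀ j, (lo j = D.fst j ∧ up j = D.snd j) ∨ (lo j = D.snd j ∧ up j = D.fst j)) ∧
    (∀ j, F.Link α j → r (lo j) < r (up j)) ∧
    (∀ j j', F.Link α j → F.Link α j' → up j = up j' → j = j') ∧
    ∀ j, F.Link α j → pg j ≤ 1 ∨ D.multComp (up j) α = D.multDbl j α

end ProportionalForms

end Run7.h615.WM
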