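import Pool.Agent.Run7.h615.WM.Forest

/-!
# The weight-monodromy conjecture for threefolds whose links form a forest
-/

namespace Run7.h615.WM

universe u v

open Module Pool.Agent.Y143 Pool.Agent.X302.MW
open scoped NNReal

variable {Ω : Type u} [Field Ω] [CharZero Ω] [IsAlgClosed Ω] {Γ : Type} {n q : ℕ}

theorem mw_forest (hn : n = 3) (hq : IsPrimePow q) (X : Degeneration.{u, v} Ω Γ n q)
    (A : DivisorClasses X.toSpecialFibre) (hI : HasIntegralFrobenius X.toSpecialFibre)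
    (hT : A.TateConj 0) {I J : Type} [Fintype I] [Fintype J]
    (D : Components X.toSpecialFibre I J) (hR : D.IsRational) (F : ProportionalForms D)
    (w : Valuation Ω ℝ≥0) (pg : J → ℕ) (hS : HasSlopes D w pg)
    (hF : ∀ α : Ω, ¬ IsTateNumber q α → F.IsForest pg α) (k : ℕ) :
    IsMWPure q k (X.actV k X.frob) (X.N k) := by
  apply mw_of_nondeg X hn A hT
  intro α hα y hy hG
  by_cases hy0 : y = 0
  · rw [hy0, map_zero]
  obtain ⟨z, hz, hz0, hzα⟩ := exists_eigen_gr X.toSpecialFibre 0 2 hy hy0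
  have hw := X.weil 0 2 α z hz hz0 hzα
  have hqΩ : (q : Ω) ≠ 0 := Nat.cast_ne_zero.2 X.q_ne
  have hα0 : α ≠ 0 := eigenvalue_ne_zero X.toSpecialFibre 0 hy.2 hy0
  have h : α * ((q : Ω) ^ 2 / α) = (q : Ω) ^ 2 := mul_div_cancel₀ _ hα0
  have hβ : ¬ IsTateNumber q ((q : Ω) ^ 2 / α) := fun hβ => hα (tate_dual X.q_ne h hβ)
  have hαβ := conj_dual X.q_ne hw h
  obtain ⟨lo, up, r, h1, h2, h3, h4⟩ := hF α hα
  apply forest_nondeg hα hβ h hαβ hR hy hG h1 h2 h3 (fun j hj => ?_) hn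
  rw [← (hR _ _ hαβ).1, ← (hR _ _ hαβ).2]
  rcases h4 j hj with h5 | h5
  · exact mult_le hq hI hS hR hα h5 (link_active h1 hj).2.2
  · exact h5.ge

end Run7.h615.WM
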