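import Pool.Agent.X302.MW.Slope

/-!
# mw purity from the injectivity of `N ^ i` on the critical parts
-/

namespace Run7.h615.WM

universe u v

open Module Pool.Agent.Y143 Pool.Agent.X302.MW

variable {Ω : Type u} [Field Ω] [CharZero Ω] [IsAlgClosed Ω] {Γ : Type} {n q : ℕ}
  (X : Degeneration.{u, v} Ω Γ n q)

section crit

variable (hC : ∀ (χ : Γ → Ω) (p i : ℤ), 1 ≤ i → ∀ m : ℕ, CritI X.diff X.lefC (X.cls χ p) i m)
include hC

lemma good_cls' (χ : Γ → Ω) (p : ℤ) (i j : ℤ) (hi : 1 ≤ i) :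
    Good2 X.diff (X.cls χ p) (X.cls (X.dualChar χ) (1 - p)) i j :=
  good (X.cls_dual p χ) (X.cls_lefComplex χ p) (X.cls_lefComplex (X.dualChar χ) (1 - p)) 0
    (fun i hi m _ => Or.inl ⟨hC χ p i hi m, hC _ _ i hi m⟩) i j hi (abs_nonneg j)

theorem nInj_tot' (i : ℤ) (hi : 1 ≤ i) (j : ℤ) : NInj X.diff X.tot i j := by
  rintro x ⟨hx1, hx2⟩
  apply mem_of_prj_mem (X.sym.comm (-i))
  intro μ
  obtain ⟨χ, hχ⟩ := exists_chr X μ (-i) j
  have h1 := X.sym.prj_zc χ n 0 hx1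
  have h2 := X.sym.prj_bd χ n 0 hx2
  have h3 := (good_cls' X hC χ 0 i j hi).inj
  have h4 : prj (X.actC (-i)) (X.sym.comm (-i)) μ x =
      prj (X.actC i) (X.sym.comm i) (chr X.cyc' χ n 0 i j) x := by
    have h5 := prj_equiv (X.sym.comm i) (X.sym.comm (-i)) (c := fun g => X.cyc' g ^ i)
      (fun g => zpow_ne_zero _ (X.cyc'_ne g)) (1 : Module.End Ω X.C)
      (fun g x => by
        have := X.sym.shift i i g x
        rwa [show i - 2 * i = -i by ring] at this) (chr X.cyc' χ n 0 i j) x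
    rw [← chr_neg X.cyc'_ne, hχ] at h5
    exact h5
  rw [hχ] at h1
  have h6 : prj (X.actC (-i)) (X.sym.comm (-i)) μ x ∈ Bd X.diff (X.cls χ 0) (-i) j := by
    apply h3
    refine ⟨h1, ?_⟩
    rw [h4]
    exact h2
  exact Sym.bd_cl_le χ n 0 _ _ h6

theorem nSurj_tot' (i : ℤ) (hi : 1 ≤ i) (j : ℤ) : NSurj X.diff X.tot i j := by
  intro y hy
  apply mem_of_prj_mem (X.sym.comm i)
  intro μ
  obtain ⟨χ, hχ⟩ := exists_chr X μ i j
  have h1 := X.sym.prj_zc χ n 0 hy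
  rw [hχ] at h1
  have h3 := (good_cls' X hC χ 0 i j hi).surj
  obtain ⟨u, hu, v, hv, huv⟩ := Submodule.mem_sup.1 (h3 h1)
  exact Submodule.mem_sup.2 ⟨u, Sym.zc_cl_le χ n 0 _ _ hu, v, Sym.bd_cl_le χ n 0 _ _ hv, huv⟩

theorem mw_of_critI (k : ℕ) : IsMWPure q k (X.actV k X.frob) (X.N k) := by
  apply X.toSemistableModel.isMWPure_of k
  · intro a ha
    exact nInj_tot' X hC a (by exact_mod_cast ha) _
  · intro a ha
    exact nSurj_tot' X hC a (by exact_mod_cast ha) _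

end crit

/-- mw purity of a threefold for which the form on the image of the restriction is nondegenerate
outside of the Tate part. -/
theorem mw_of_nondeg (hn : n = 3) (A : DivisorClasses X.toSpecialFibre) (hT : A.TateConj 0)
    (hs : ∀ α : Ω, ¬ IsTateNumber q α → ∀ y ∈ frobPart X.toSpecialFibre 0 2 α,
      X.gys 0 (X.res 0 y) = 0 → X.res 0 y = 0) (k : ℕ) :
    IsMWPure q k (X.actV k X.frob) (X.N k) := by
  apply mw_of_critI
  intro χ p i hi m
  obtain ⟨a, ha⟩ := Int.eq_ofNat_of_zero_le (show 0 ≤ i - 1 by omega)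
  obtain rfl : i = (a : ℤ) + 1 := by omega
  rcases lt_or_ge ((n : ℤ) - m - ((a : ℤ) + 1)) 2 with hw | hw
  · exact critI_low X A χ p a m hw
  obtain rfl : a = 0 := by omega
  obtain rfl : m = 0 := by omega
  left
  apply nInj_cls X 0 0 rfl
  intro y hy hyW hG
  have hw2 : (n : ℤ) - ((0 : ℕ) : ℤ) - (((0 : ℕ) : ℤ) + 1) = 2 := by rw [hn]; norm_num
  rw [hw2] at hy ⊢
  have hyg : y ∈ (X.act 0 X.frob).maxGenEigenspace
      (chr X.cyc' χ n p (((0 : ℕ) : ℤ) + 1) (-((0 : ℕ) : ℤ)) X.frob) := by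
    unfold Wt at hyW
    rw [Submodule.mem_iInf] at hyW
    exact hyW X.frob
  by_cases hα : IsTateNumber q (chr X.cyc' χ n p (((0 : ℕ) : ℤ) + 1) (-((0 : ℕ) : ℤ)) X.frob)
  · obtain ⟨v, hv, hR, hz⟩ := crit2 A 0 (by omega) (hT _ hα y hy hyg) hG
    rw [hz]
    exact single_mem_cobound X 0 hv hR
  · rw [hs _ hα y ⟨hy, hyg⟩ hG, Pi.single_zero]
    exact Submodule.zero_mem _

end Run7.h615.WM
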