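import Pool.Agent.Run7.h615.WM.Slp
import Pool.Agent.Run7.h615.WM.Mw

/-!
# The nondegeneracy of the form on the image of the restriction, for a forest of links
-/

namespace Run7.h615.WM

universe u v

open Module Pool.Agent.Y143 Pool.Agent.X302.MW
open scoped NNReal

variable {Ω : Type u} [Field Ω] [CharZero Ω] [IsAlgClosed Ω] {Γ : Type} {n q : ℕ}
  {X : SpecialFibre.{u, v} Ω Γ n q} {I J : Type} [Fintype I] [Fintype J]
  {D : Components X I J} (F : ProportionalForms D)

section basic

omit [IsAlgClosed Ω] in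
/-- The restriction to `D_j` is the sum of the restrictions of the two components. -/
lemma dbl_res (D : Components X I J) (j : J) (x : X.H 0) :
    D.dbl j (X.res 0 x) = D.resTo (D.fst j) j x + D.resTo (D.snd j) j x := by
  classical
  conv_lhs => rw [← D.comp_split.sum x, map_sum, map_sum]
  rw [Finset.sum_eq_add (D.fst j) (D.snd j) (D.ne j)]
  · rfl
  · rintro i - ⟨h1, h2⟩
    exact LinearMap.congr_fun (D.incident i j h1 h2) x
  · intro h
    exact absurd (Finset.mem_univ _) h
  · intro h
    exact absurd (Finset.mem_univ _) h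

omit [IsAlgClosed Ω] in
lemma resTo_eq_zero (D : Components X I J) {i : I} {j : J} (h1 : i ≠ D.fst j) (h2 : i ≠ D.snd j)
    (x : X.H 0) : D.resTo i j x = 0 := LinearMap.congr_fun (D.incident i j h1 h2) x

omit [IsAlgClosed Ω] in
/-- The equation at the vertex `i`. -/
lemma vertex (D : Components X I J) {y : X.H 0} (hG : X.gys 0 (X.res 0 y) = 0) (i : I)
    {y' : X.H 0} (hy' : D.comp i y' = y') :
    ∑ j, X.pair 1 (D.dbl j (X.res 0 y)) (D.resTo i j y') = 0 := by
  have h1 : X.pair 1 (X.res 0 y) (X.res 0 y') = 0 := by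
    rw [← X.pair_gys, hG, map_zero, LinearMap.zero_apply]
  have h2 : X.res 0 y = ∑ j, D.dbl j (X.res 0 y) := (D.dbl_split.sum _).symm
  rw [h2, map_sum, LinearMap.sum_apply] at h1
  rw [← h1]
  apply Finset.sum_congr rfl
  intro j _
  have h3 : X.pair 1 (D.dbl j (X.res 0 y)) (X.res 0 y') =
      X.pair 1 (D.dbl j (X.res 0 y)) (D.dbl j (X.res 0 y')) := by
    have h5 : X.pair 1 (D.dbl j (D.dbl j (X.res 0 y))) (X.res 0 y') =
      X.pair 1 (D.dbl j (X.res 0 y)) (D.dbl j (X.res 0 y')) := D.dbl_split.pair j _ _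
    rw [← h5, D.dbl_split.idem]
  rw [h3]
  show _ = X.pair 1 (D.dbl j (X.res 0 y)) (D.dbl j (X.res 0 y'))
  have h4 : D.resTo i j y' = D.dbl j (X.res 0 y') := by
    show D.dbl j (X.res 0 (D.comp i y')) = _
    rw [hy']
  rw [h4]

end basic

section forest

variable {F} {α β : Ω} (hα : ¬ IsTateNumber q α) (hβ : ¬ IsTateNumber q β)
  (h : α * β = (q : Ω) ^ 2) (hαβ : AreConjugate α β) (hR : D.IsRational)
  {y : X.H 0} (hy : y ∈ frobPart X 0 2 α) (hG : X.gys 0 (X.res 0 y) = 0)

include F hα in
omit [IsAlgClosed Ω] in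
lemma res_zero_of_not {i : I} {j : J} (hna : ¬ F.Active α i j) {x : X.H 0}
    (hx : x ∈ frobPart X 0 2 α) : D.resTo i j x = 0 := by
  rw [← resTo_comp]
  by_cases hd : F.deg i j = 0
  · exact F.zero i j α hα hd _ (comp_mem D i hx)
  · have hm : D.multComp i α = 0 := by
      by_contra hm
      exact hna ⟨hd, hm⟩
    unfold Components.multComp at hm
    rw [Submodule.finrank_eq_zero] at hm
    have h1 := comp_mem D i hx
    rw [hm, Submodule.mem_bot] at h1
    rw [h1, map_zero]

include hαβ hR in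
omit [IsAlgClosed Ω] in
lemma active_iff (i : I) (j : J) : F.Active α i j ↔ F.Active β i j := by
  unfold ProportionalForms.Active
  rw [(hR α β hαβ).1 i]

/-- The double surface `j` is below the vertex `i`, or it is attached to `i` only. -/
def Down (F : ProportionalForms D) (α : Ω) (lo : J → I) (i : I) (j : J) : Prop :=
  F.Active α i j ∧ (i = D.fst j ∨ i = D.snd j) ∧ (F.Link α j → lo j = i)

variable {lo up : J → I} {r : I → ℕ}
  (h1 : ∀ j, (lo j = D.fst j ∧ up j = D.snd j) ∨ (lo j = D.snd j ∧ up j = D.fst j))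
  (h2 : ∀ j, F.Link α j → r (lo j) < r (up j))
  (h3 : ∀ j j', F.Link α j → F.Link α j' → up j = up j' → j = j')
  (h4 : ∀ j, F.Link α j → D.multDbl j β ≤ D.multComp (up j) β)

include h1 in
omit [IsAlgClosed Ω] in
lemma dbl_res' (j : J) (x : X.H 0) :
    D.dbl j (X.res 0 x) = D.resTo (lo j) j x + D.resTo (up j) j x := by
  rw [dbl_res]
  rcases h1 j with ⟨ha, hb⟩ | ⟨ha, hb⟩
  · rw [ha, hb]
  · rw [ha, hb, add_comm]

include h1 in
omit [IsAlgClosed Ω] in
lemma link_active {j : J} (hj : F.Link α j) : F.Active α (lo j) j ∧ F.Active α (up j) j := by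
  rcases h1 j with ⟨ha, hb⟩ | ⟨ha, hb⟩
  · rw [ha, hb]
    exact hj
  · rw [ha, hb]
    exact ⟨hj.2, hj.1⟩

include h1 in
omit [IsAlgClosed Ω] in
lemma lo_end (j : J) : lo j = D.fst j ∨ lo j = D.snd j := by
  rcases h1 j with ⟨ha, -⟩ | ⟨ha, -⟩
  · exact Or.inl ha
  · exact Or.inr ha

include h1 in
omit [IsAlgClosed Ω] in
/-- A double surface which is not below `i` is not active, or it is a link with upper end `i`. -/
lemma not_down {i : I} {j : J} (hd : ¬ Down F α lo i j) :
    (∀ x, D.resTo i j x = 0) ∨ ¬ F.Active α i j ∨ (F.Link α j ∧ up j = i) := by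
  by_cases ha : F.Active α i j
  · by_cases he : i = D.fst j ∨ i = D.snd j
    · right
      right
      have h5 : ¬ (F.Link α j → lo j = i) := fun h5 => hd ⟨ha, he, h5⟩
      push Not at h5
      refine ⟨h5.1, ?_⟩
      rcases h1 j with ⟨hl, hu⟩ | ⟨hl, hu⟩
      · rcases he with he | he
        · exact absurd (hl.trans he.symm) h5.2
        · rw [hu, he]
      · rcases he with he | he
        · rw [hu, he]
        · exact absurd (hl.trans he.symm) h5.2
    · left
      push Not at he
      exact resTo_eq_zero D he.1 he.2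
  · exact Or.inr (Or.inl ha)

include hα h1 hy in
omit [IsAlgClosed Ω] in
/-- A double surface which is attached to `i` only. -/
lemma pendant {i : I} {j : J} (hd : Down F α lo i j) (hl : ¬ F.Link α j) :
    D.dbl j (X.res 0 y) = D.resTo i j y := by
  obtain ⟨ha, he, -⟩ := hd
  rw [dbl_res]
  rcases he with he | he
  · have h5 : ¬ F.Active α (D.snd j) j := fun h5 => hl ⟨by rw [← he]; exact ha, h5⟩
    rw [res_zero_of_not hα h5 hy, add_zero, he]
  · have h5 : ¬ F.Active α (D.fst j) j := fun h5 => hl ⟨h5, by rw [← he]; exact ha⟩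
    rw [res_zero_of_not hα h5 hy, zero_add, he]

include F hα hβ hαβ hR h1 hy in
omit [IsAlgClosed Ω] in
/-- The terms of the equation at the vertex `i`. -/
lemma term {i : I} {j : J} {c : ℚ} (hc : Down F α lo i j →
    D.dbl j (X.res 0 y) = (c : Ω) • D.resTo i j y) (hc' : ¬ Down F α lo i j → c = 0)
    (hnl : ¬ (F.Link α j ∧ up j = i)) {y' : X.H 0} (hy' : y' ∈ D.compPart i β) :
    X.pair 1 (D.dbl j (X.res 0 y)) (D.resTo i j y') =
      ((c * F.deg i j : ℚ) : Ω) * F.form i (D.comp i y) y' := by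
  by_cases hd : Down F α lo i j
  · rw [hc hd, map_smul, LinearMap.smul_apply, ← resTo_comp D i j y,
      F.restrict i j α β hα hβ _ (comp_mem D i hy) _ hy', smul_eq_mul]
    push_cast
    ring
  · rw [hc' hd, zero_mul, Rat.cast_zero, zero_mul]
    rcases not_down h1 hd with h5 | h5 | h5
    · rw [h5, map_zero]
    · have h6 : ¬ F.Active β i j := fun h6 => h5 ((active_iff hαβ hR i j).2 h6)
      rw [res_zero_of_not hβ h6 hy'.1, map_zero]
    · exact absurd h5 hnl

include hα hβ h hαβ hR hy hG h1 h2 h3 h4 in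
/-- From the leaves to the root: the restriction to a link is a nonnegative multiple of the
restriction of the class on the lower component. -/
lemma upward (hn : n = 3) (M : ℕ) (hM : ∀ i, r i ≤ M) : ∀ N : ℕ, ∀ j, F.Link α j →
    M < r (up j) + N →
    ∃ c : ℚ, 0 ≤ c ∧ D.dbl j (X.res 0 y) = (c : Ω) • D.resTo (lo j) j y := by
  classical
  intro N
  induction N with
  | zero =>
    intro j _ hN
    exact absurd (hM (up j)) (by omega)
  | succ N ih =>
    intro j hj hN
    have hex : ∀ j' : J, ∃ c : ℚ, 0 ≤ c ∧ (Down F α lo (up j) j' →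
        D.dbl j' (X.res 0 y) = (c : Ω) • D.resTo (up j) j' y) ∧
        (¬ Down F α lo (up j) j' → c = 0) := by
      intro j'
      by_cases hd : Down F α lo (up j) j'
      · by_cases hl : F.Link α j'
        · have h5 : lo j' = up j := hd.2.2 hl
          have h6 := h2 j' hl
          rw [h5] at h6
          obtain ⟨c, hc, hc'⟩ := ih j' hl (by omega)
          rw [h5] at hc'
          exact ⟨c, hc, fun _ => hc', fun h => absurd hd h⟩
        · refine ⟨1, zero_le_one, fun _ => ?_, fun h => absurd hd h⟩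
          rw [pendant hα hy h1 hd hl, Rat.cast_one, one_smul]
      · exact ⟨0, le_rfl, fun h => absurd h hd, fun _ => rfl⟩
    choose c hc0 hc1 hc2 using hex
    set i := up j with hi
    set κ : ℚ := ∑ j', c j' * F.deg i j' with hκ
    have hκ0 : 0 ≤ κ := Finset.sum_nonneg fun j' _ => mul_nonneg (hc0 j') (Nat.cast_nonneg _)
    have hjd : ¬ Down F α lo i j := by
      intro hd
      have h5 := hd.2.2 hj
      have h6 := h2 j hj
      rw [h5] at h6
      exact lt_irrefl _ h6
    have heq : ∀ y' ∈ D.compPart i β, ((κ : ℚ) : Ω) * F.form i (D.comp i y) y' +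
        X.pair 1 (D.dbl j (X.res 0 y)) (D.resTo i j y') = 0 := by
      intro y' hy'
      rw [← vertex D hG i (comp_self D i hy'), ← Finset.add_sum_erase _ _ (Finset.mem_univ j),
        add_comm]
      congr 1
      have h7 : ∀ j' ∈ Finset.univ.erase j,
          X.pair 1 (D.dbl j' (X.res 0 y)) (D.resTo i j' y') =
            ((c j' * F.deg i j' : ℚ) : Ω) * F.form i (D.comp i y) y' := by
        intro j' hj'
        apply term hα hβ hαβ hR hy h1 (hc1 j') (hc2 j') _ hy'
        rintro ⟨h8, h9⟩
        exact (Finset.ne_of_mem_erase hj') (h3 j' j h8 hj h9)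
      rw [Finset.sum_congr rfl h7, ← Finset.sum_mul, hκ, Rat.cast_sum]
      congr 1
      rw [← Finset.add_sum_erase _ _ (Finset.mem_univ j), hc2 j hjd, zero_mul, Rat.cast_zero,
        zero_add]
    have hact := (link_active h1 hj).2
    have hdeg : F.deg i j ≠ 0 := hact.1
    have hR1 : D.dbl j (X.res 0 y) ∈ D.dblPart j α := dbl_mem D j (res_frobPart X 0 2 hy)
    have hzero : ((κ : ℚ) : Ω) • D.resTo i j y + (F.deg i j : Ω) • D.dbl j (X.res 0 y) = 0 := by
      apply dblPart_perf D hn j h
      · exact Submodule.add_mem _ (Submodule.smul_mem _ _ (resTo_mem D i j hy))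
          (Submodule.smul_mem _ _ hR1)
      · intro s hs
        obtain ⟨y', hy', rfl⟩ := resTo_surj F hβ hα (by rw [mul_comm]; exact h) hdeg (h4 j hj) hs
        have h7 := heq y' hy'
        rw [map_add, LinearMap.add_apply, map_smul, map_smul, LinearMap.smul_apply,
          LinearMap.smul_apply, ← resTo_comp D i j y,
          F.restrict i j α β hα hβ _ (comp_mem D i hy) _ hy', smul_eq_mul, smul_eq_mul]
        linear_combination (F.deg i j : Ω) * h7
    have hsum := dbl_res' h1 j y
    rw [← hi] at hsum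
    have hpos : (0 : ℚ) < κ + F.deg i j := by
      have : (0 : ℚ) < F.deg i j := by exact_mod_cast Nat.pos_of_ne_zero hdeg
      linarith
    have hposΩ : ((κ + F.deg i j : ℚ) : Ω) ≠ 0 := by
      exact_mod_cast hpos.ne'
    refine ⟨κ / (κ + F.deg i j), div_nonneg hκ0 hpos.le, ?_⟩
    have h8 : ((κ + F.deg i j : ℚ) : Ω) • D.dbl j (X.res 0 y) = (κ : Ω) • D.resTo (lo j) j y := by
      have h9 : D.resTo i j y = D.dbl j (X.res 0 y) - D.resTo (lo j) j y := by
        rw [hsum]
        abel
      rw [h9, smul_sub] at hzero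
      rw [Rat.cast_add, Rat.cast_natCast, add_smul]
      rw [sub_add_eq_add_sub, sub_eq_zero] at hzero
      exact hzero
    have h10 : D.dbl j (X.res 0 y) =
        (((κ + F.deg i j : ℚ) : Ω))⁻¹ • (((κ + F.deg i j : ℚ) : Ω) • D.dbl j (X.res 0 y)) := by
      rw [smul_smul, inv_mul_cancel₀ hposΩ, one_smul]
    rw [h10, h8, smul_smul]
    congr 1
    rw [Rat.cast_div, div_eq_inv_mul]

include hα hβ h hαβ hR hy hG h1 h2 h3 h4 in
/-- From the root to the leaves. -/
lemma downward (hn : n = 3) : ∀ N : ℕ, ∀ i, r i < N → ∀ j, Down F α lo i j →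
    D.dbl j (X.res 0 y) = 0 := by
  classical
  obtain ⟨M, hM⟩ : ∃ M, ∀ i, r i ≤ M := by
    refine ⟨Finset.univ.sup r, fun i => Finset.le_sup (Finset.mem_univ i)⟩
  intro N
  induction N with
  | zero =>
    intro i hi
    exact absurd hi (Nat.not_lt_zero _)
  | succ N ih =>
    intro i hi
    have hex : ∀ j' : J, ∃ c : ℚ, 0 ≤ c ∧ (Down F α lo i j' →
        D.dbl j' (X.res 0 y) = (c : Ω) • D.resTo i j' y) ∧
        (¬ Down F α lo i j' → c = 0) := by
      intro j'
      by_cases hd : Down F α lo i j'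
      · by_cases hl : F.Link α j'
        · have h5 : lo j' = i := hd.2.2 hl
          obtain ⟨c, hc, hc'⟩ := upward hα hβ h hαβ hR hy hG h1 h2 h3 h4 hn M hM (M + 1) j' hl
            (by omega)
          rw [h5] at hc'
          exact ⟨c, hc, fun _ => hc', fun h => absurd hd h⟩
        · refine ⟨1, zero_le_one, fun _ => ?_, fun h => absurd hd h⟩
          rw [pendant hα hy h1 hd hl, Rat.cast_one, one_smul]
      · exact ⟨0, le_rfl, fun h => absurd h hd, fun _ => rfl⟩
    choose c hc0 hc1 hc2 using hex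
    set κ : ℚ := ∑ j', c j' * F.deg i j' with hκ
    have heq : ∀ y' ∈ D.compPart i β, ((κ : ℚ) : Ω) * F.form i (D.comp i y) y' = 0 := by
      intro y' hy'
      rw [← vertex D hG i (comp_self D i hy'), hκ, Rat.cast_sum, Finset.sum_mul]
      apply Finset.sum_congr rfl
      intro j' _
      by_cases hl : F.Link α j' ∧ up j' = i
      · have h5 := h2 j' hl.1
        rw [hl.2] at h5
        have h6 : D.dbl j' (X.res 0 y) = 0 :=
          ih (lo j') (by omega) j' ⟨(link_active h1 hl.1).1, lo_end h1 j', fun _ => rfl⟩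
        rw [h6, map_zero, LinearMap.zero_apply]
        have h7 : ¬ Down F α lo i j' := by
          intro hd
          have h8 := hd.2.2 hl.1
          rw [h8] at h5
          exact lt_irrefl _ h5
        rw [hc2 j' h7, zero_mul, Rat.cast_zero, zero_mul]
      · exact (term hα hβ hαβ hR hy h1 (hc1 j') (hc2 j') hl hy').symm
    intro j hd
    by_cases hκ0 : κ = 0
    · have h5 : c j * F.deg i j = 0 := by
        rw [hκ] at hκ0
        exact (Finset.sum_eq_zero_iff_of_nonneg (fun j' _ =>
          mul_nonneg (hc0 j') (Nat.cast_nonneg _))).1 hκ0 j (Finset.mem_univ j)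
      have h6 : c j = 0 := (mul_eq_zero.1 h5).resolve_right (Nat.cast_ne_zero.2 hd.1.1)
      rw [hc1 j hd, h6, Rat.cast_zero, zero_smul]
    · have hκΩ : (κ : Ω) ≠ 0 := by exact_mod_cast hκ0
      have h5 : D.comp i y = 0 := F.nondeg i α β hα h _ (comp_mem D i hy) fun y' hy' =>
        (mul_eq_zero.1 (heq y' hy')).resolve_left hκΩ
      rw [hc1 j hd, ← resTo_comp, h5, map_zero, smul_zero]

include hα hβ h hαβ hR hy hG h1 h2 h3 h4 in
theorem forest_nondeg (hn : n = 3) : X.res 0 y = 0 := by
  have hdown := downward hα hβ h hαβ hR hy hG h1 h2 h3 h4 hn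
  rw [← D.dbl_split.sum (X.res 0 y)]
  apply Finset.sum_eq_zero
  intro j _
  by_cases hl : F.Link α j
  · exact hdown (r (lo j) + 1) (lo j) (Nat.lt_succ_self _) j
      ⟨(link_active h1 hl).1, lo_end h1 j, fun _ => rfl⟩
  · by_cases hf : F.Active α (D.fst j) j
    · exact hdown (r (D.fst j) + 1) (D.fst j) (Nat.lt_succ_self _) j
        ⟨hf, Or.inl rfl, fun h => absurd h hl⟩
    · by_cases hs : F.Active α (D.snd j) j
      · exact hdown (r (D.snd j) + 1) (D.snd j) (Nat.lt_succ_self _) j
          ⟨hs, Or.inr rfl, fun h => absurd h hl⟩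
      · rw [dbl_res, res_zero_of_not hα hf hy, res_zero_of_not hα hs hy, add_zero]

end forest

end Run7.h615.WM
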