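import Pool.Agent.X302.MW.Three
import Pool.Agent.Run7.h615.WM.Defs

/-!
# Frobenius eigenspaces, duality and conjugates
-/

namespace Run7.h615.WM

universe u v

open Module Polynomial Pool.Agent.Y143 Pool.Agent.X302.MW
open scoped NNReal ComplexConjugate

section gen

variable {Ω : Type*} [Field Ω] {A B : Type*} [AddCommGroup A] [Module Ω A] [AddCommGroup B]
  [Module Ω B]

lemma map_gen {S : Module.End Ω A} {S' : Module.End Ω B} (f : A →ₗ[Ω] B)
    (hf : ∀ x, f (S x) = S' (f x)) {α : Ω} {x : A} (hx : x ∈ S.maxGenEigenspace α) :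
    f x ∈ S'.maxGenEigenspace α := by
  obtain ⟨k, hk⟩ := Module.End.mem_maxGenEigenspace _ _ _ |>.1 hx
  rw [Module.End.mem_maxGenEigenspace]
  refine ⟨k, ?_⟩
  have h1 : ∀ (k : ℕ) (x : A), ((S' - α • (1 : Module.End Ω B)) ^ k) (f x) =
      f (((S - α • (1 : Module.End Ω A)) ^ k) x) := by
    intro k
    induction k with
    | zero => intro x; rfl
    | succ k ih =>
      intro x
      have h3 : (S' - α • (1 : Module.End Ω B)) (f x) =
          f ((S - α • (1 : Module.End Ω A)) x) := by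
        show S' (f x) - α • f x = f (S x - α • x)
        rw [map_sub, map_smul, hf]
      rw [pow_succ, Module.End.mul_apply, h3, ih, pow_succ, Module.End.mul_apply]
  rw [h1, hk, map_zero]

/-- Generalized eigenvectors of the inverse. -/
lemma gen_inv {S S' : Module.End Ω A} (h1 : ∀ x, S' (S x) = x) (h2 : ∀ x, S (S' x) = x) {α : Ω}
    (hα : α ≠ 0) {x : A} (hx : x ∈ S.maxGenEigenspace α) : x ∈ S'.maxGenEigenspace α⁻¹ := by
  obtain ⟨k, hk⟩ := Module.End.mem_maxGenEigenspace _ _ _ |>.1 hx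
  rw [Module.End.mem_maxGenEigenspace]
  refine ⟨k, ?_⟩
  have hcomm : Commute ((-α⁻¹) • S') (S - α • (1 : Module.End Ω A)) := by
    apply Commute.smul_left
    apply Commute.sub_right
    · ext y
      show S' (S y) = S (S' y)
      rw [h1, h2]
    · exact (Commute.one_right _).smul_right _
  have h3 : S' - α⁻¹ • (1 : Module.End Ω A) =
      ((-α⁻¹) • S') * (S - α • (1 : Module.End Ω A)) := by
    ext y
    show S' y - α⁻¹ • y = (-α⁻¹) • S' (S y - α • y)
    rw [map_sub, h1, map_smul, smul_sub, smul_smul, neg_mul, inv_mul_cancel₀ hα]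
    simp only [neg_smul, one_smul]
    abel
  rw [h3, hcomm.mul_pow, Module.End.mul_apply, hk, map_zero]

end gen

variable {Ω : Type u} [Field Ω] [CharZero Ω] {Γ : Type} {n q : ℕ}

section cnj

lemma tate_dual {α β : Ω} (hq : q ≠ 0) (h : α * β = (q : Ω) ^ 2) (hβ : IsTateNumber q β) :
    IsTateNumber q α := by
  obtain ⟨k, hk, hk'⟩ := hβ
  refine ⟨k, hk, ?_⟩
  have hqΩ : (q : Ω) ≠ 0 := Nat.cast_ne_zero.2 hq
  have h1 : α ^ k * β ^ k = (q : Ω) ^ k * (q : Ω) ^ k := by
    rw [← mul_pow, h, ← mul_pow, sq]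
  rw [hk'] at h1
  exact mul_right_cancel₀ (pow_ne_zero _ hqΩ) h1

/-- The complex conjugate of a Weil number of weight two is a conjugate. -/
lemma conj_dual {α β : Ω} (hq : q ≠ 0) (hw : IsWeilNumber q 2 α) (h : α * β = (q : Ω) ^ 2) :
    AreConjugate α β := by
  have hqΩ : (q : Ω) ≠ 0 := Nat.cast_ne_zero.2 hq
  have hα0 : α ≠ 0 := by
    rintro rfl
    rw [zero_mul] at h
    exact pow_ne_zero 2 hqΩ h.symm
  have hβ : β = (q : Ω) ^ 2 / α := by
    rw [eq_div_iff hα0, mul_comm]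
    exact h
  have hint : IsIntegral ℚ α := hw.1.isIntegral
  obtain ⟨z, hz⟩ := IsAlgClosed.exists_aeval_eq_zero ℂ (minpoly ℚ α)
    (minpoly.degree_pos hint).ne'
  have hnorm := hw.2 z hz
  have hnorm' : ‖z‖ = q := by
    rw [hnorm]
    norm_num
  have hzz : z * conj z = (q : ℂ) ^ 2 := by
    rw [Complex.mul_conj, Complex.normSq_eq_norm_sq, hnorm']
    push_cast
    rfl
  have hqC : (q : ℂ) ≠ 0 := Nat.cast_ne_zero.2 hq
  have hz0 : z ≠ 0 := by
    rintro rfl
    rw [zero_mul] at hzz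
    exact pow_ne_zero 2 hqC hzz.symm
  have hconj : aeval ((q : ℂ) ^ 2 / z) (minpoly ℚ α) = 0 := by
    have h1 : (q : ℂ) ^ 2 / z = conj z := by
      rw [div_eq_iff hz0, mul_comm, hzz]
    rw [h1]
    have h2 : conj z = (Complex.conjAe.toAlgHom.restrictScalars ℚ) z := rfl
    rw [h2, aeval_algHom_apply, hz, map_zero]
  let E := IntermediateField.adjoin ℚ {α}
  have hzroot : z ∈ (minpoly ℚ α).aroots ℂ := by
    rw [mem_aroots]
    exact ⟨minpoly.ne_zero hint, hz⟩
  let ψ : E →ₐ[ℚ] ℂ := (IntermediateField.algHomAdjoinIntegralEquiv ℚ hint).symm ⟨z, hzroot⟩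
  have hψ : ψ (IntermediateField.AdjoinSimple.gen ℚ α) = z :=
    IntermediateField.algHomAdjoinIntegralEquiv_symm_apply_gen ℚ hint ⟨z, hzroot⟩
  have h3 : aeval ((q : E) ^ 2 / IntermediateField.AdjoinSimple.gen ℚ α) (minpoly ℚ α) = 0 := by
    apply ψ.toRingHom.injective
    show ψ _ = ψ 0
    rw [map_zero, ← aeval_algHom_apply, map_div₀, map_pow, map_natCast, hψ]
    exact hconj
  have h4 : aeval β (minpoly ℚ α) = 0 := by
    have h5 := congrArg (algebraMap E Ω) h3
    rw [map_zero, ← aeval_algebraMap_apply, map_div₀, map_pow, map_natCast,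
      IntermediateField.AdjoinSimple.algebraMap_gen, ← hβ] at h5
    exact h5
  refine ⟨hw.1, ⟨_, minpoly.ne_zero hint, h4⟩, ?_⟩
  exact minpoly.eq_of_irreducible_of_monic (minpoly.irreducible hint) h4 (minpoly.monic hint)

end cnj

section pairing

variable (X : SpecialFibre.{u, v} Ω Γ n q)

lemma frob_inv' (a : ℕ) (x : X.H a) : X.act a X.frob (X.act a (X.tr X.frob) x) = x := by
  rw [X.act_comm, X.frob_inv]

/-- Orthogonality of the eigenspaces. -/
lemma pair_eq_zero (a : ℕ) {α γ : Ω} (hγ0 : γ ≠ 0) (h : α * γ ≠ (q : Ω) ^ ((n : ℤ) - a)) {x y : X.H a}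
    (hx : x ∈ (X.act a X.frob).maxGenEigenspace α) (hy : y ∈ (X.act a X.frob).maxGenEigenspace γ) :
    X.pair a x y = 0 := by
  have hy' := gen_inv (X.frob_inv a) (frob_inv' X a) hγ0 hy
  obtain ⟨k, hk⟩ := Module.End.mem_maxGenEigenspace _ _ _ |>.1 hx
  obtain ⟨l, hl⟩ := Module.End.mem_maxGenEigenspace _ _ _ |>.1 hy'
  refine orth_genEigen (A := ⊤) (A' := ⊤) (κ := (q : Ω) ^ ((n : ℤ) - a)) (μ := α) (ν := γ⁻¹)
    (fun _ _ => Submodule.mem_top) (fun _ _ => Submodule.mem_top)
    (fun x _ y _ => ?_) ?_ k l x Submodule.mem_top y Submodule.mem_top hk hl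
  · rw [X.act_pair, Units.val_zpow_eq_zpow_val, X.cyc_frob]
  · intro hc
    apply h
    rw [hc, mul_assoc, inv_mul_cancel₀ hγ0, mul_one]

lemma eigenvalue_ne_zero (a : ℕ) {γ : Ω} {y : X.H a}
    (hy : y ∈ (X.act a X.frob).maxGenEigenspace γ) (hy0 : y ≠ 0) : γ ≠ 0 := by
  rintro rfl
  obtain ⟨k, hk⟩ := Module.End.mem_maxGenEigenspace _ _ _ |>.1 hy
  apply hy0
  have h1 : ∀ (k : ℕ) (y : X.H a),
      ((X.act a X.frob - (0 : Ω) • (1 : Module.End Ω (X.H a))) ^ k) y = 0 → y = 0 := by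
    intro k
    induction k with
    | zero => intro y hy; exact hy
    | succ k ih =>
      intro y hy
      rw [pow_succ, Module.End.mul_apply] at hy
      have h2 := ih _ hy
      have h3 : X.act a X.frob y = 0 := by
        simpa using h2
      rw [← X.frob_inv a y, h3, map_zero]
  exact h1 k y hk

/-- The pairing of dual eigenspaces in the middle cohomology is perfect. -/
lemma frobPart_perf [IsAlgClosed Ω] (a : ℕ) (m : ℤ) {α β : Ω}
    (h : α * β = (q : Ω) ^ ((n : ℤ) - a)) {x : X.H a}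
    (hx : x ∈ frobPart X a m α)
    (h0 : ∀ y ∈ frobPart X a (2 * ((n : ℤ) - a) - m) β, X.pair a x y = 0) : x = 0 := by
  apply X.pair_nondeg
  intro y
  refine X.gr_induction (P := fun y => X.pair a x y = 0) (by simp)
    (fun y z hy hz => by rw [map_add, hy, hz, add_zero]) (fun m' y hy => ?_) y
  by_cases hm : m + m' = 2 * ((n : ℤ) - a)
  · obtain rfl : m' = 2 * ((n : ℤ) - a) - m := by omega
    have hT : ∀ g h : Unit, Commute ((fun _ : Unit => X.act a X.frob) g)
        ((fun _ : Unit => X.act a X.frob) h) := fun _ _ => Commute.refl _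
    suffices hh : y ∈ LinearMap.ker (X.pair a x) from hh
    apply mem_of_prj_mem hT
    intro χ
    have h1 := prj_stable hT (p := X.gr a (2 * ((n : ℤ) - a) - m))
      (fun _ x hx => X.act_gr a _ X.frob x hx) χ hy
    have h2 : prj _ hT χ y ∈ (X.act a X.frob).maxGenEigenspace (χ ()) := by
      have := prj_mem hT χ y
      unfold Wt at this
      rw [Submodule.mem_iInf] at this
      exact this ()
    show X.pair a x (prj _ hT χ y) = 0
    by_cases hy0 : prj _ hT χ y = 0
    · rw [hy0, map_zero]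
    have hne := eigenvalue_ne_zero X a h2 hy0
    by_cases hχ : α * χ () = (q : Ω) ^ ((n : ℤ) - a)
    · apply h0
      refine ⟨h1, ?_⟩
      have : χ () = β := by
        rw [← h] at hχ
        have hα0 : α ≠ 0 := by
          rintro rfl
          rw [zero_mul] at h
          exact zpow_ne_zero _ (Nat.cast_ne_zero.2 X.q_ne) h.symm
        exact mul_left_cancel₀ hα0 hχ
      rwa [this] at h2
    · exact pair_eq_zero X a hne hχ hx.2 h2
  · exact X.pair_gr a m m' _ _ hx.1 hy hm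

end pairing

section splitting

variable {X : SpecialFibre.{u, v} Ω Γ n q} {a : ℕ} {I : Type} [Fintype I]
  {p : I → Module.End Ω (X.H a)} (hp : IsSplitting (X.gr a) (X.pair a) (X.act a X.frob) p)
include hp

lemma IsSplitting.frobPart (i : I) {m : ℤ} {α : Ω} {x : X.H a} (hx : x ∈ frobPart X a m α) :
    p i x ∈ frobPart X a m α :=
  ⟨hp.gr i m x hx.1, map_gen (p i) (hp.frob i) hx.2⟩

lemma IsSplitting.self (i : I) {x : X.H a} (hx : x ∈ LinearMap.range (p i)) : p i x = x := by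
  obtain ⟨y, rfl⟩ := hx
  exact hp.idem i y

end splitting

section comps

variable {X : SpecialFibre.{u, v} Ω Γ n q} {I J : Type} [Fintype I] [Fintype J]
  (D : Components X I J)

lemma comp_mem (i : I) {α : Ω} {x : X.H 0} (hx : x ∈ frobPart X 0 2 α) :
    D.comp i x ∈ D.compPart i α := ⟨D.comp_split.frobPart i hx, ⟨x, rfl⟩⟩

lemma dbl_mem (j : J) {α : Ω} {x : X.H 1} (hx : x ∈ frobPart X 1 2 α) :
    D.dbl j x ∈ D.dblPart j α := ⟨D.dbl_split.frobPart j hx, ⟨x, rfl⟩⟩

lemma resTo_mem (i : I) (j : J) {α : Ω} {x : X.H 0} (hx : x ∈ frobPart X 0 2 α) :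
    D.resTo i j x ∈ D.dblPart j α :=
  dbl_mem D j (res_frobPart X 0 2 (D.comp_split.frobPart i hx))

lemma comp_self (i : I) {α : Ω} {x : X.H 0} (hx : x ∈ D.compPart i α) : D.comp i x = x :=
  D.comp_split.self i hx.2

lemma resTo_comp (i : I) (j : J) (x : X.H 0) : D.resTo i j (D.comp i x) = D.resTo i j x := by
  show D.dbl j (X.res 0 (D.comp i (D.comp i x))) = D.dbl j (X.res 0 (D.comp i x))
  rw [D.comp_split.idem]

lemma dblPart_perf [IsAlgClosed Ω] (hn : n = 3) (j : J) {α β : Ω} (h : α * β = (q : Ω) ^ 2)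
    {x : X.H 1} (hx : x ∈ D.dblPart j α) (h0 : ∀ y ∈ D.dblPart j β, X.pair 1 x y = 0) : x = 0 := by
  subst hn
  refine frobPart_perf X 1 2 (β := β) ?_ hx.1 ?_
  · rw [h]
    norm_num
  · intro y hy
    rw [show 2 * (((3 : ℕ) : ℤ) - ((1 : ℕ) : ℤ)) - 2 = 2 by norm_num] at hy
    have h1 : X.pair 1 (D.dbl j x) y = X.pair 1 x (D.dbl j y) := D.dbl_split.pair j x y
    rw [← D.dbl_split.self j hx.2, h1]
    exact h0 _ (dbl_mem D j hy)

end comps

end Run7.h615.WM
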