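import Pool.Agent.Run7.h615.WM.Final
import Pool.Agent.Helper60K9.KL.Main

/-!
# Threefolds without the hard Lefschetz theorem for the generic fibre
-/

namespace Run7.h615.WM

universe u v

open Module Pool.Agent.Y143 Pool.Agent.X302.MW Pool.Agent.Helper60K9.KL
open scoped NNReal

variable {Ω : Type u} [Field Ω] [CharZero Ω] [IsAlgClosed Ω] {Γ : Type} {n q : ℕ}

/-- The criterion for divisors from the nondegeneracy on the non-Tate part. -/
lemma divCrit_of_nondeg (X : SpecialFibre.{u, v} Ω Γ n q) (hn : n = 3) (A : DivisorClasses X)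
    (hT : A.TateConj 0)
    (hs : ∀ α : Ω, ¬ IsTateNumber q α → ∀ y ∈ frobPart X 0 2 α,
      X.gys 0 (X.res 0 y) = 0 → X.res 0 y = 0) : DivCrit X 0 := by
  intro y hy hG
  have hfin : Module.Finite Ω (X.H 0) := X.finite 0
  set P : Submodule Ω (X.H 0) := X.gr 0 2 ⊓ LinearMap.ker (X.gys 0 ∘ₗ X.res 0) with hP
  have hPF : ∀ x ∈ P, X.act 0 X.frob x ∈ P := by
    rintro x ⟨h1, h2⟩
    refine ⟨X.act_gr _ _ _ _ h1, ?_⟩
    have h3 : X.gys 0 (X.res 0 x) = 0 := h2
    show X.gys 0 (X.res 0 (X.act 0 X.frob x)) = 0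
    rw [← X.res_act]
    have h4 := X.gys_act 0 X.frob (X.res 0 x)
    rw [h3, map_zero] at h4
    have h5 : ((X.cyc X.frob : Ωˣ) : Ω) ≠ 0 := Units.ne_zero _
    rcases smul_eq_zero.1 h4.symm with h6 | h6
    · exact absurd h6 h5
    · exact h6
  have h1 := Submodule.eq_iSup_inf_genEigenspace (p := P) (f := X.act 0 X.frob) ⊤ hPF
    (Module.End.iSup_maxGenEigenspace_eq_top _)
  have h2 : P ≤ (Submodule.span Ω (A.A1 0 : Set (X.H 0)) ⊓ P) ⊔ LinearMap.ker (X.res 0) := by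
    rw [h1]
    apply iSup_le
    intro α x hx
    rw [← h1]
    by_cases hα : IsTateNumber q α
    · exact Submodule.mem_sup_left ⟨hT α hα x hx.1.1 hx.2, hx.1⟩
    · exact Submodule.mem_sup_right (hs α hα x ⟨hx.1.1, hx.2⟩ hx.1.2)
  obtain ⟨y1, ⟨hy1, hy1P⟩, y2, hy2, rfl⟩ := Submodule.mem_sup.1 (h2 ⟨hy, hG⟩)
  have h3 : X.res 0 y2 = 0 := hy2
  obtain ⟨v, hv, hR, hz⟩ := crit2 A 0 (by omega) hy1 hy1P.2
  refine ⟨v, hv, hR, ?_⟩
  rw [map_add, h3, add_zero]
  exact hz

/-- The criterion for divisors for threefolds whose links form a forest. -/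
lemma divCrit_forest (X : SpecialFibre.{u, v} Ω Γ n q) (hn : n = 3) (hq : IsPrimePow q)
    (A : DivisorClasses X) (hI : HasIntegralFrobenius X)
    (hT : A.TateConj 0) {I J : Type} [Fintype I] [Fintype J]
    (D : Components X I J) (hR : D.IsRational) (F : ProportionalForms D)
    (w : Valuation Ω ℝ≥0) (pg : J → ℕ) (hS : HasSlopes D w pg)
    (hF : ∀ α : Ω, ¬ IsTateNumber q α → F.IsForest pg α) : DivCrit X 0 := by
  apply divCrit_of_nondeg X hn A hT
  intro α hα y hy hG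
  by_cases hy0 : y = 0
  · rw [hy0, map_zero]
  obtain ⟨z, hz, hz0, hzα⟩ := exists_eigen_gr X 0 2 hy hy0
  have hw := X.weil 0 2 α z hz hz0 hzα
  have hqΩ : (q : Ω) ≠ 0 := Nat.cast_ne_zero.2 X.q_ne
  have hα0 : α ≠ 0 := eigenvalue_ne_zero X 0 hy.2 hy0
  have h : α * ((q : Ω) ^ 2 / α) = (q : Ω) ^ 2 := mul_div_cancel₀ _ hα0
  have hβ : ¬ IsTateNumber q ((q : Ω) ^ 2 / α) := fun hβ => hα (tate_dual X.q_ne h hβ)
  have hαβ := conj_dual X.q_ne hw h
  obtain ⟨lo, up, r, h1, h2, h3, h4⟩ := hF α hα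
  apply forest_nondeg hα hβ h hαβ hR hy hG h1 h2 h3 (fun j hj => ?_) hn
  rw [← (hR _ _ hαβ).1, ← (hR _ _ hαβ).2]
  rcases h4 j hj with h5 | h5
  · exact mult_le hq hI hS hR hα h5 (link_active h1 hj).2.2
  · exact h5.ge

section generic

variable (X : SemistableModel.{u, v} Ω Γ 3 q) (A : DivisorClasses X.toSpecialFibre)
include A

/-- Kato's conjecture in the degrees different from two and four, from the criterion for
divisors. -/
lemma kato_odd (h : DivCrit X.toSpecialFibre 0) (m : ℕ) (h2 : m ≠ 2) (h4 : m ≠ 4) :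
    KatoAt X m := by
  rcases Nat.lt_or_ge m 6 with hm | hm
  · interval_cases m
    · exact katoAt_zero A
    · exact katoAt_one A
    · exact absurd rfl h2
    · exact (katoAt_three A).2 h
    · exact absurd rfl h4
    · exact (katoAt_dual X 5 1 (by norm_num)).2 (katoAt_one A)
  · exact katoAt_big m (by omega)

lemma kato_all (h : DivCrit X.toSpecialFibre 0) (hP : PrimGysin X.toSpecialFibre 0) (m : ℕ) :
    KatoAt X m := by
  by_cases h2 : m = 2
  · rw [h2]; exact (katoAt_two A).2 hP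
  by_cases h4 : m = 4
  · rw [h4]; exact (katoAt_dual X 4 2 (by norm_num)).2 ((katoAt_two A).2 hP)
  exact kato_odd X A h m h2 h4

end generic

end Run7.h615.WM
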