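import Pool.Agent.Run7.h615.WM.Lin

/-!
# Slopes and multiplicities; surjectivity of the restriction
-/

namespace Run7.h615.WM

universe u v

open Module Polynomial Pool.Agent.Y143 Pool.Agent.X302.MW
open scoped NNReal

variable {Ω : Type u} [Field Ω] [CharZero Ω] [IsAlgClosed Ω] {Γ : Type} {n q : ℕ}

section val

variable {w : Valuation Ω ℝ≥0}

lemma log_q_neg (hq : q ≠ 0) (hw : w (q : Ω) < 1) : Real.log (w (q : Ω)) < 0 := by
  have hqΩ : (q : Ω) ≠ 0 := Nat.cast_ne_zero.2 hq
  have h1 : (0 : ℝ) < (w (q : Ω) : ℝ) := by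
    have : w (q : Ω) ≠ 0 := (Valuation.ne_zero_iff w).2 hqΩ
    exact_mod_cast pos_iff_ne_zero.2 this
  exact Real.log_neg h1 (by exact_mod_cast hw)

/-- A Weil number of weight two which is not a Tate number has a conjugate of slope less than
one. -/
lemma exists_slope_lt (hq : IsPrimePow q) (hw : w (q : Ω) < 1) {α : Ω} (hint : IsIntegral ℤ α)
    (hα : IsWeilNumber q 2 α) (hT : ¬ IsTateNumber q α) :
    ∃ α' : Ω, aeval α' (minpoly ℚ α) = 0 ∧ slope w q α' < 1 := by
  by_contra hcon
  push Not at hcon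
  have hqΩ : (q : Ω) ≠ 0 := Nat.cast_ne_zero.2 hq.ne_zero
  have hlog := log_q_neg hq.ne_zero hw
  have hwq : w (q : Ω) ≠ 0 := (Valuation.ne_zero_iff w).2 hqΩ
  apply hT
  apply tate_of_val hq w.valuationSubring ?_ hint hα
  · intro α' hα'
    have h1 := hcon α' hα'
    rw [Valuation.mem_valuationSubring_iff, map_div₀]
    by_cases h0 : w α' = 0
    · rw [h0, zero_div]
      exact zero_le_one
    · rw [div_le_one₀ (pos_iff_ne_zero.2 hwq)]
      unfold slope at h1
      rw [le_div_iff_of_neg hlog, one_mul] at h1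
      have h2 : (0 : ℝ) < (w α' : ℝ) := by exact_mod_cast pos_iff_ne_zero.2 h0
      have h3 := (Real.log_le_log_iff h2 (by exact_mod_cast pos_iff_ne_zero.2 hwq)).1 h1
      exact_mod_cast h3
  · intro h
    rw [Valuation.mem_valuationSubring_iff, map_inv₀, inv_le_one₀ (pos_iff_ne_zero.2 hwq)] at h
    exact absurd hw (not_lt.2 h)

lemma nodup_aroots {α : Ω} (hα : IsAlgebraic ℚ α) : ((minpoly ℚ α).aroots Ω).Nodup :=
  nodup_roots (minpoly.irreducible hα.isIntegral).separable.map

lemma defect_eq [DecidableEq Ω] {α : Ω} (hα : IsAlgebraic ℚ α) : defect w q α =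
    ∑ β ∈ ((minpoly ℚ α).aroots Ω).toFinset.filter (fun β => slope w q β < 1),
      (1 - slope w q β) := by
  unfold defect
  rw [Finset.sum_filter]
  have h1 : ∀ β : Ω, max 0 (1 - slope w q β) =
      if slope w q β < 1 then 1 - slope w q β else 0 := by
    intro β
    split_ifs with h
    · exact max_eq_right (by linarith)
    · exact max_eq_left (by linarith)
  have h2 : (fun β => max 0 (1 - slope w q β)) =
      fun β => if slope w q β < 1 then 1 - slope w q β else 0 := funext h1
  rw [h2, Finset.sum, Multiset.toFinset_val, (nodup_aroots hα).dedup]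

lemma defect_nonneg (α : Ω) : 0 ≤ defect w q α := by
  unfold defect
  apply Multiset.sum_nonneg
  intro x hx
  obtain ⟨β, -, rfl⟩ := Multiset.mem_map.1 hx
  exact le_max_left _ _

lemma defect_pos (hq : IsPrimePow q) (hw : w (q : Ω) < 1) {α : Ω} (hint : IsIntegral ℤ α)
    (hα : IsWeilNumber q 2 α) (hT : ¬ IsTateNumber q α) : 0 < defect w q α := by
  classical
  obtain ⟨α', h1, h2⟩ := exists_slope_lt hq hw hint hα hT
  rw [defect_eq hα.1]
  apply Finset.sum_pos
  · intro β hβ
    have := (Finset.mem_filter.1 hβ).2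
    linarith
  · refine ⟨α', Finset.mem_filter.2 ⟨?_, h2⟩⟩
    rw [Multiset.mem_toFinset, mem_aroots]
    exact ⟨minpoly.ne_zero hα.1.isIntegral, h1⟩

end val

section mult

variable {X : SpecialFibre.{u, v} Ω Γ n q} {I J : Type} [Fintype I] [Fintype J]
  {D : Components X I J} {w : Valuation Ω ℝ≥0} {pg : J → ℕ}

lemma conj_of_root {α β : Ω} (hα : IsAlgebraic ℚ α) (h : aeval β (minpoly ℚ α) = 0) :
    AreConjugate α β := by
  have hint := hα.isIntegral
  exact ⟨hα, ⟨_, minpoly.ne_zero hint, h⟩,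
    minpoly.eq_of_irreducible_of_monic (minpoly.irreducible hint) h (minpoly.monic hint)⟩

lemma mult_defect_le (hS : HasSlopes D w pg) (hR : D.IsRational) (j : J) {α : Ω}
    (hα : IsAlgebraic ℚ α) : D.multDbl j α * defect w q α ≤ pg j := by
  classical
  rw [defect_eq hα, Finset.mul_sum]
  refine le_trans (le_of_eq ?_) (hS.hodge_dbl j
    (((minpoly ℚ α).aroots Ω).toFinset.filter (fun β => slope w q β < 1)))
  apply Finset.sum_congr rfl
  intro β hβ
  have h1 := (Finset.mem_filter.1 hβ).1
  rw [Multiset.mem_toFinset, mem_aroots] at h1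
  rw [(hR α β (conj_of_root hα h1.2)).2 j]

/-- If the geometric genus of `D_j` is at most one, the multiplicities are equal. -/
lemma mult_le (hq : IsPrimePow q) (hI : HasIntegralFrobenius X) (hS : HasSlopes D w pg)
    (hR : D.IsRational) {i : I} {j : J} {α : Ω} (hT : ¬ IsTateNumber q α)
    (hj : pg j ≤ 1) (hi : D.multComp i α ≠ 0) : D.multDbl j α ≤ D.multComp i α := by
  -- an eigenvector
  obtain ⟨x, hx, hx0⟩ : ∃ x ∈ D.compPart i α, x ≠ 0 := by
    by_contra hcon
    push Not at hcon
    apply hi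
    have : D.compPart i α = ⊥ := by
      rw [eq_bot_iff]
      intro x hx
      exact hcon x hx
    unfold Components.multComp
    rw [this, finrank_bot]
  obtain ⟨y, hy, hy0, hyα⟩ := exists_eigen_gr X 0 2 hx.1 hx0
  have hint := hI 0 2 α y hy hy0 hyα
  have hw := X.weil 0 2 α y hy hy0 hyα
  have hpos := defect_pos hq hS.lt_one hint hw hT
  obtain ⟨m, hm⟩ := hS.manin_comp i α hw.1
  have h1 := mult_defect_le hS hR j hw.1
  have h2 : (pg j : ℝ) ≤ 1 := by exact_mod_cast hj
  have h3 : (0 : ℝ) < D.multComp i α := by exact_mod_cast Nat.pos_of_ne_zero hi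
  have h4 : (0 : ℝ) < m := by
    rw [← hm]
    positivity
  have h5 : (1 : ℝ) ≤ m := by
    have : (0 : ℤ) < m := by exact_mod_cast h4
    exact_mod_cast (by omega : (1 : ℤ) ≤ m)
  have h6 : (D.multDbl j α : ℝ) * defect w q α ≤ D.multComp i α * defect w q α := by
    rw [hm]
    linarith
  have h7 := le_of_mul_le_mul_right h6 hpos
  exact_mod_cast h7

end mult

section surj

variable {X : SpecialFibre.{u, v} Ω Γ n q} {I J : Type} [Fintype I] [Fintype J]
  {D : Components X I J} (F : ProportionalForms D)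
include F

/-- The restriction is injective on the non-Tate part if the degree is not zero. -/
lemma resTo_inj {i : I} {j : J} {α β : Ω} (hα : ¬ IsTateNumber q α)
    (hβ : ¬ IsTateNumber q β) (h : α * β = (q : Ω) ^ 2) (hd : F.deg i j ≠ 0) {x : X.H 0}
    (hx : x ∈ D.compPart i α) (h0 : D.resTo i j x = 0) : x = 0 := by
  apply F.nondeg i α β hα h x hx
  intro y hy
  have h1 := F.restrict i j α β hα hβ x hx y hy
  rw [h0, map_zero, LinearMap.zero_apply] at h1
  exact (mul_eq_zero.1 h1.symm).resolve_left (Nat.cast_ne_zero.2 hd)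

lemma resTo_surj {i : I} {j : J} {α β : Ω} (hα : ¬ IsTateNumber q α)
    (hβ : ¬ IsTateNumber q β) (h : α * β = (q : Ω) ^ 2) (hd : F.deg i j ≠ 0)
    (hm : D.multDbl j α ≤ D.multComp i α) {y : X.H 1} (hy : y ∈ D.dblPart j α) :
    ∃ x ∈ D.compPart i α, D.resTo i j x = y := by
  have hmap : (D.compPart i α).map (D.resTo i j) ≤ D.dblPart j α := by
    rintro _ ⟨x, hx, rfl⟩
    exact resTo_mem D i j hx.1
  have hinj : Function.Injective ((D.resTo i j).domRestrict (D.compPart i α)) := by
    rw [← LinearMap.ker_eq_bot, LinearMap.ker_eq_bot']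
    intro x hx
    exact Subtype.ext (resTo_inj F hα hβ h hd x.2 hx)
  have h1 : LinearMap.range ((D.resTo i j).domRestrict (D.compPart i α)) =
      (D.compPart i α).map (D.resTo i j) := by
    ext t
    constructor
    · rintro ⟨s, rfl⟩
      exact ⟨s, s.2, rfl⟩
    · rintro ⟨s, hs, rfl⟩
      exact ⟨⟨s, hs⟩, rfl⟩
  have h2 : finrank Ω ((D.compPart i α).map (D.resTo i j)) = finrank Ω (D.compPart i α) := by
    rw [← h1, LinearMap.finrank_range_of_inj hinj]
  have h3 := Submodule.eq_of_le_of_finrank_le hmap (by rw [h2]; exact hm)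
  rw [← h3] at hy
  obtain ⟨x, hx, hxy⟩ := hy
  exact ⟨x, hx, hxy⟩

end surj

end Run7.h615.WM
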